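import Pool.Agent.H15.LB.F

/-!
# Lang's inequality for almost all algebraic numbers of degree `d`, for all denominators up to
`H ^ κ` with `κ < (d + 1) / 2`

For every degree `d ≥ 2` and every `κ < (d + 1) / 2` there are `σ, C > 0` such that for EVERY function
`ψ ≥ 0` and every `H ≥ 1` the number of the real algebraic numbers `ξ` of degree `d` and height at
most `H` with `|ξ - p / q| ≤ ψ(q) / q` for some `p` and some `1 ≤ q ≤ H ^ κ` is at most
`C H ^ (d + 1) (∑_{q ≤ H ^ κ} ψ(q) + H ^ (-σ))`. In particular, for all `ε, η > 0` there is `c > 0`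
such that for every `H` all but at most `η H ^ (d + 1)` of these numbers satisfy Lang's inequality
`|ξ - p / q| > c / (q² (log q) ^ (1 + ε))` for all `p` and all `2 ≤ q ≤ H ^ κ`.

The proof: at a point `y` for which the dual lattice has no short vector, the number of the
polynomials `P` of height at most `H` with `|P(y)| ≤ λ` is `O(λ H ^ d)` (Parseval's formula for a
finite group). The points with a short dual vector `m` (`|m_0| ≤ 1 / (8 λ)`, `|m_i - m_0 y^i|` at most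
`1 / (8 (d + 1) H)`) form a set of measure `O(H ^ (-σ'))` as long as `λ > H ^ (-d + δ)`, by
transference and the theorem of Kleinbock and Margulis for the Veronese curve; this set is a union of
intervals of length about `λ / H`, so that one can pass from one scale `λ` to the next smaller one
`λ H ^ (-c)`. Large roots are moved to the interval `[-1, 1]` by reversing the polynomials.
-/

set_option autoImplicit false

namespace Pool.Agent.Results.MP_c307ca_nt.WideRange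

open Finset Polynomial

/-- `ξ` is a root of an integer polynomial of degree `d` which is irreducible over `ℚ` and has
coefficients of absolute value at most `H`: a real algebraic number of degree `d` and height at
most `H` -/
def DegHeight (d H : ℕ) (ξ : ℝ) : Prop :=
  ∃ P : ℤ[X], P.natDegree = d ∧ (∀ i, |P.coeff i| ≤ (H : ℤ)) ∧
    Irreducible (P.map (Int.castRingHom ℚ)) ∧ aeval ξ P = 0

/-- **Lang's inequality for almost all algebraic numbers of degree `d`, with denominators up to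
`H ^ κ`, `κ < (d + 1) / 2`.** -/
theorem result (d : ℕ) (hd : 2 ≤ d) (κ : ℝ) (hκ : κ < ((d : ℝ) + 1) / 2) :
    -- arbitrary approximation functions
    (∃ σ : ℝ, 0 < σ ∧ ∃ C : ℝ, 0 < C ∧ ∀ ψ : ℕ → ℝ, (∀ q, 0 ≤ ψ q) → ∀ H : ℕ, 1 ≤ H →
      {ξ : ℝ | DegHeight d H ξ ∧ ∃ (p : ℤ) (q : ℕ), 1 ≤ q ∧ (q : ℝ) ≤ (H : ℝ) ^ κ ∧
        |ξ - (p : ℝ) / q| ≤ ψ q / q}.Finite ∧
      ({ξ : ℝ | DegHeight d H ξ ∧ ∃ (p : ℤ) (q : ℕ), 1 ≤ q ∧ (q : ℝ) ≤ (H : ℝ) ^ κ ∧
        |ξ - (p : ℝ) / q| ≤ ψ q / q}.ncard : ℝ) ≤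
        C * (H : ℝ) ^ (d + 1) * (∑ q ∈ Icc 1 ⌊(H : ℝ) ^ κ⌋₊, ψ q + (H : ℝ) ^ (-σ))) ∧
    -- Lang's inequality
    (∀ ε η : ℝ, 0 < ε → 0 < η → ∃ c : ℝ, 0 < c ∧ ∀ H : ℕ, 1 ≤ H →
      {ξ : ℝ | DegHeight d H ξ ∧ ∃ (p : ℤ) (q : ℕ), 2 ≤ q ∧ (q : ℝ) ≤ (H : ℝ) ^ κ ∧
        |ξ - (p : ℝ) / q| ≤ c / ((q : ℝ) ^ 2 * Real.log q ^ (1 + ε))}.Finite ∧
      ({ξ : ℝ | DegHeight d H ξ ∧ ∃ (p : ℤ) (q : ℕ), 2 ≤ q ∧ (q : ℝ) ≤ (H : ℝ) ^ κ ∧
        |ξ - (p : ℝ) / q| ≤ c / ((q : ℝ) ^ 2 * Real.log q ^ (1 + ε))}.ncard : ℝ) ≤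
        η * (H : ℝ) ^ (d + 1)) :=
  ⟨Pool.Agent.H15.LB.main d hd κ hκ, fun ε η hε hη => Pool.Agent.H15.LB.lang d hd κ hκ ε η hε hη⟩

end Pool.Agent.Results.MP_c307ca_nt.WideRange
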